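import Pool.Agent.Helper21.TR.Weak
import Pool.Agent.Helper98.MT.MaxTorus

/-!
The neutral element of an extremal square zero element which is an eigenvector of a rational
semisimple element.
-/

open Module LieAlgebra MTPairs

namespace TR

open MTP MTP.MF Pool.Agent.Helper54.MT

section lie

attribute [local instance 100] LieRing.ofAssociativeRing

variable {K : Type*} [Field K] [CharZero K] [IsAlgClosed K] {V : Type*} [AddCommGroup V]
  [Module K V] [FiniteDimensional K V] {ω : LinearMap.BilinForm K V}

omit [IsAlgClosed K] in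
/-- A basis of eigenvectors with rational eigenvalues. -/
lemma exists_rat_basis {h : Module.End K V} (hdiag : ⨆ q : ℚ, h.eigenspace (q : K) = ⊤) :
    ∃ (n : ℕ) (b : Basis (Fin n) K V) (χ : Fin n → ℚ), ∀ i, h (b i) = (χ i : K) • b i := by
  classical
  have hind : iSupIndep (fun q : ℚ => h.eigenspace (q : K)) :=
    (Module.End.eigenspaces_iSupIndep h).comp Rat.cast_injective
  have hint : DirectSum.IsInternal (fun q : ℚ => h.eigenspace (q : K)) :=
    DirectSum.isInternal_submodule_of_iSupIndep_of_iSup_eq_top hind hdiag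
  let B := hint.collectedBasis (fun q : ℚ => Module.finBasis K (h.eigenspace (q : K)))
  have hfin : Finite (Σ q : ℚ, Fin (finrank K (h.eigenspace (q : K)))) :=
    Module.Finite.finite_basis B
  obtain ⟨n, ⟨e⟩⟩ := hfin.exists_equiv_fin (α := (Σ q : ℚ, Fin (finrank K (h.eigenspace (q : K)))))
  refine ⟨n, B.reindex e, fun i => (e.symm i).1, fun i => ?_⟩
  have h1 : B (e.symm i) ∈ h.eigenspace (((e.symm i).1 : ℚ) : K) :=
    hint.collectedBasis_mem _ _
  rw [Basis.reindex_apply]
  exact Module.End.mem_eigenspace_iff.mp h1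

omit [IsAlgClosed K] in
/-- The component of weight `-2` of the adjoint action of an element with `h₁³ = h₁`. -/
lemma comp_neg_two {L : Submodule K (Module.End K V)} {h x : Module.End K V}
    (hL : ∀ z ∈ L, h * z - z * h ∈ L) (h3 : h * h * h = h) (hx : x ∈ L) :
    ((2 : K)⁻¹ • (h * h - h)) * x * ((2 : K)⁻¹ • (h * h + h)) ∈ L := by
  have m1 := hL x hx
  have m2 := hL _ m1
  have m3 := hL _ m2
  have m4 := hL _ m3
  set D1 := h * x - x * h with hD1
  set D2 := h * D1 - D1 * h with hD2
  set D3 := h * D2 - D2 * h with hD3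
  set D4 := h * D3 - D3 * h with hD4
  have e2 : D2 = h * h * x - (2 : K) • (h * x * h) + x * (h * h) := by
    rw [hD2, hD1, two_smul]; noncomm_ring
  have e3 : D3 = h * x - (3 : K) • (h * h * x * h) + (3 : K) • (h * x * (h * h)) - x * h := by
    have : D3 = (h * h * h) * x - 3 • (h * h * x * h) + 3 • (h * x * (h * h)) -
        x * (h * h * h) := by
      rw [hD3, hD2, hD1]; noncomm_ring
    rw [this, h3]
    module
  have e4 : D4 = h * h * x + x * (h * h) - (8 : K) • (h * x * h) +
      (6 : K) • (h * h * x * (h * h)) := by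
    have : D4 = (h * h * h) * h * x - 4 • ((h * h * h) * x * h) + 6 • (h * h * x * (h * h)) -
        4 • (h * x * (h * h * h)) + x * ((h * h * h) * h) := by
      rw [hD4, hD3, hD2, hD1]; noncomm_ring
    rw [this, h3]
    module
  have e : ((2 : K)⁻¹ • (h * h - h)) * x * ((2 : K)⁻¹ • (h * h + h)) =
      (24 : K)⁻¹ • (D4 - (2 : K) • D3 - D2 + (2 : K) • D1) := by
    rw [e4, e3, e2, hD1]
    have e5 : ((2 : K)⁻¹ • (h * h - h)) * x * ((2 : K)⁻¹ • (h * h + h)) =
        (4 : K)⁻¹ • (h * h * x * (h * h) + h * h * x * h - h * x * (h * h) - h * x * h) := by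
      simp only [smul_mul_assoc, mul_smul_comm, smul_smul]
      have : (h * h - h) * x * (h * h + h) =
        h * h * x * (h * h) + h * h * x * h - h * x * (h * h) - h * x * h := by noncomm_ring
      rw [this]
      norm_num
    rw [e5]
    match_scalars <;> norm_num
  rw [e]
  exact L.smul_mem _ (L.add_mem (L.sub_mem (L.sub_mem m4 (L.smul_mem _ m3)) m2)
    (L.smul_mem _ m1))

/-- **The neutral element.** -/
theorem neutral {L : Submodule K (Module.End K V)} {S : Set (Module.End K V)}
    (hC : Ctx ω L S) {N h : Module.End K V} (hN : N ∈ L)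
    (hNN : N * N = 0) (hN0 : N ≠ 0) (hext : ∀ y ∈ L, ∃ c : K, N * y * N = c • N)
    (hh : h ∈ L) (hdiag : ⨆ q : ℚ, h.eigenspace (q : K) = ⊤) {σ : K} (hσ : h * N = σ • N) :
    ∃ f ∈ L, f * f = 0 ∧ N * f * N = N ∧ f * N * f = f ∧
      h * (N * f - f * N) = (N * f - f * N) * h := by
  classical
  obtain ⟨n, b, χ, hb⟩ := exists_rat_basis hdiag
  have hLh : ∀ z ∈ L, h * z - z * h ∈ L := fun z hz => hC.irr.br h hh z hz
  -- skewness
  have hNh : N * h = -(σ • N) := by
    have hskN := hC.irr.sk N hN
    have hskh := hC.irr.sk h hh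
    apply LinearMap.ext
    intro v
    have h0 : ∀ w, ω ((N * h) v - (-(σ • N)) v) w = 0 := by
      intro w
      have e1 : ω (N (h v)) w = - ω (h v) (N w) := hskN _ _
      have e2 : ω (h v) (N w) = - ω v (h (N w)) := hskh _ _
      have e3 : h (N w) = σ • N w := LinearMap.congr_fun hσ w
      have e4 : ω (N v) w = - ω v (N w) := hskN _ _
      rw [map_sub, LinearMap.sub_apply, Module.End.mul_apply, e1, e2, e3, LinearMap.neg_apply,
        LinearMap.smul_apply, map_neg, LinearMap.neg_apply, map_smul, map_smul,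
        LinearMap.smul_apply, e4, smul_eq_mul, smul_eq_mul]
      ring
    have := hC.nd.1 _ h0
    exact sub_eq_zero.mp this
  -- the entries of `N`
  have hent : ∀ i j, en b N i j ≠ 0 → σ = χ i ∧ -σ = χ j := by
    intro i j hij
    have h1 : en b (h * N) i j = (χ i : K) * en b N i j := by
      rw [en_mul]
      simp only [en_diag b hb]
      rw [Finset.sum_eq_single i]
      · simp
      · intro k _ hk
        rw [if_neg (Ne.symm hk), zero_mul]
      · simp
    have h2 : en b (N * h) i j = en b N i j * (χ j : K) := by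
      rw [en_mul]
      simp only [en_diag b hb]
      rw [Finset.sum_eq_single j]
      · simp
      · intro k _ hk
        rw [if_neg hk, mul_zero]
      · simp
    have h3 : en b (h * N) i j = σ * en b N i j := by rw [hσ]; simp [en]
    have h4 : en b (N * h) i j = -(σ * en b N i j) := by rw [hNh]; simp [en]
    constructor
    · have : (σ - χ i) * en b N i j = 0 := by linear_combination h1 - h3
      exact sub_eq_zero.mp ((mul_eq_zero.mp this).resolve_right hij)
    · have : (-σ - χ j) * en b N i j = 0 := by linear_combination h2 - h4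
      exact sub_eq_zero.mp ((mul_eq_zero.mp this).resolve_right hij)
  -- an element with nonzero trace
  obtain ⟨f0, hf0, ht0⟩ : ∃ y ∈ L, LinearMap.trace K V (N * y) ≠ 0 := by
    by_contra hcon
    push Not at hcon
    exact hN0 (hC.irr.nondeg hC.nd hN hcon)
  obtain ⟨c, hc⟩ := hext f0 hf0
  have hc0 : c ≠ 0 := by
    rintro rfl
    rw [zero_smul] at hc
    apply ht0
    have hnil : IsNilpotent (N * f0) := by
      refine ⟨2, ?_⟩
      rw [pow_two]
      calc N * f0 * (N * f0) = (N * f0 * N) * f0 := by noncomm_ring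
        _ = 0 := by rw [hc, zero_mul]
    exact (LinearMap.isNilpotent_trace_of_isNilpotent hnil).eq_zero
  obtain ⟨i0, j0, hij0⟩ : ∃ i j, en b N i j ≠ 0 := by
    by_contra hcon
    push Not at hcon
    apply hN0
    apply en_ext b
    intro i j
    rw [hcon i j]
    simp [en]
  have hσi : σ = χ i0 := (hent i0 j0 hij0).1
  obtain ⟨f1, hf1, hfe⟩ := exists_comp b hb hLh hf0 (-2 * χ i0)
  have hχ : ∀ i j, en b N i j ≠ 0 → χ i = χ i0 ∧ χ j = -χ i0 := by
    intro i j hij
    obtain ⟨h1, h2⟩ := hent i j hij
    rw [hσi] at h1 h2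
    constructor
    · exact_mod_cast h1.symm
    · exact_mod_cast h2.symm
  have hNf : N * f1 * N = c • N := by
    rw [← hc]
    apply en_ext b
    intro i l
    rw [en_mul, en_mul]
    apply Finset.sum_congr rfl
    intro k _
    by_cases hkl : en b N k l = 0
    · rw [hkl, mul_zero, mul_zero]
    · congr 1
      rw [en_mul, en_mul]
      apply Finset.sum_congr rfl
      intro j _
      by_cases hij : en b N i j = 0
      · rw [hij, zero_mul, zero_mul]
      · congr 1
        rw [hfe, if_pos]
        rw [(hχ k l hkl).1, (hχ i j hij).2]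
        ring
  have hcomm1 : h * f1 - f1 * h = -((2 * σ) • f1) := by
    apply en_ext b
    intro i j
    rw [en_comm b hb]
    have e1 : en b (-((2 * σ) • f1)) i j = -(2 * σ * en b f1 i j) := by simp [en]
    rw [e1]
    by_cases hij : χ i - χ j = -2 * χ i0
    · rw [hij, hσi]; push_cast; ring
    · have : en b f1 i j = 0 := by rw [hfe, if_neg hij]
      rw [this]; simp
  -- scaling
  set g : Module.End K V := c⁻¹ • f1 with hg
  have hgL : g ∈ L := L.smul_mem _ hf1
  have hNg : N * g * N = N := by
    rw [hg, mul_smul_comm, smul_mul_assoc, hNf, smul_smul, inv_mul_cancel₀ hc0, one_smul]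
  have hcg : h * g = g * h - (2 * σ) • g := by
    have h1 : h * f1 = f1 * h - (2 * σ) • f1 := by
      rw [sub_eq_add_neg, ← hcomm1]; abel
    rw [hg, mul_smul_comm, h1, smul_mul_assoc, smul_sub, smul_comm]
  clear_value g
  set E := N * g with hE
  set F := g * N with hF
  have hEE : E * E = E := by
    calc E * E = (N * g * N) * g := by rw [hE]; noncomm_ring
      _ = E := by rw [hNg]
  have hFF : F * F = F := by
    calc F * F = g * (N * g * N) := by rw [hF]; noncomm_ring
      _ = F := by rw [hNg]
  have hFE : F * E = 0 := by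
    calc F * E = g * (N * N) * g := by rw [hF, hE]; noncomm_ring
      _ = 0 := by rw [hNN]; simp
  have hEN : E * N = N := hNg
  have hNF : N * F = N := by rw [hF, ← mul_assoc]; exact hNg
  have hNE : N * E = 0 := by rw [hE, ← mul_assoc, hNN, zero_mul]
  have hFN : F * N = 0 := by rw [hF, mul_assoc, hNN, mul_zero]
  have hhE : h * E = σ • E := by
    rw [hE, ← mul_assoc, hσ, smul_mul_assoc]
  have hEh : E * h = σ • E := by
    have h1 : g * h = h * g + (2 * σ) • g := by rw [hcg]; abel
    calc E * h = N * (g * h) := by rw [hE, mul_assoc]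
      _ = N * h * g + (2 * σ) • E := by rw [h1, mul_add, mul_smul_comm, ← mul_assoc]
      _ = -(σ • E) + (2 * σ) • E := by rw [hNh, neg_mul, smul_mul_assoc]
      _ = σ • E := by
        rw [← neg_smul, ← add_smul]
        congr 1
        ring
  have hFh : F * h = -(σ • F) := by
    rw [hF, mul_assoc, hNh, mul_neg, mul_smul_comm]
  have hhF : h * F = -(σ • F) := by
    calc h * F = h * g * N := by rw [hF, mul_assoc]
      _ = g * (h * N) - (2 * σ) • F := by rw [hcg, sub_mul, hF, mul_assoc g h N, smul_mul_assoc]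
      _ = σ • F - (2 * σ) • F := by rw [hσ, mul_smul_comm]
      _ = -(σ • F) := by
        rw [← neg_smul, ← sub_smul]
        congr 1
        ring
  set k := E - F with hk
  have hkL : k ∈ L := by
    have := hC.irr.br N hN g hgL
    exact this
  have hkk : k * k = E + F - E * F := by
    have : k * k = E * E - E * F - F * E + F * F := by rw [hk]; noncomm_ring
    rw [this, hEE, hFF, hFE]; abel
  have hkkk : k * k * k = k := by
    rw [hkk, hk]
    have : (E + F - E * F) * (E - F) = E * E - E * F + F * E - F * F - E * (F * E) +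
      E * (F * F) := by noncomm_ring
    rw [this, hEE, hFF, hFE, mul_zero]
    abel
  have hLk : ∀ z ∈ L, k * z - z * k ∈ L := fun z hz => hC.irr.br k hkL z hz
  have hfL := comp_neg_two hLk hkkk hgL
  set P := (2 : K)⁻¹ • (k * k + k) with hP
  set Q := (2 : K)⁻¹ • (k * k - k) with hQ
  have hP' : P = E - (2 : K)⁻¹ • (E * F) := by
    rw [hP, hkk, hk]
    match_scalars <;> norm_num
  have hQ' : Q = F - (2 : K)⁻¹ • (E * F) := by
    rw [hQ, hkk, hk]
    match_scalars <;> norm_num
  have hPQ : P * Q = 0 := by
    rw [hP, hQ, smul_mul_assoc, mul_smul_comm]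
    have : (k * k + k) * (k * k - k) = (k * k * k) * k - k * k := by noncomm_ring
    rw [this, hkkk, sub_self, smul_zero, smul_zero]
  have hNQ : N * Q = N := by
    rw [hQ', mul_sub, hNF, mul_smul_comm, ← mul_assoc, hNE, zero_mul, smul_zero, sub_zero]
  have hPN : P * N = N := by
    rw [hP', sub_mul, hEN, smul_mul_assoc, mul_assoc, hFN, mul_zero, smul_zero, sub_zero]
  have hQF : Q * F = Q := by
    rw [hQ', sub_mul, hFF, smul_mul_assoc, mul_assoc, hFF]
  have hEP : E * P = P := by
    rw [hP', mul_sub, hEE, mul_smul_comm, ← mul_assoc, hEE]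
  have hfN : Q * g * P * N = Q := by
    rw [mul_assoc, hPN, mul_assoc]
    exact hQF
  have hNf' : N * (Q * g * P) = P := by
    calc N * (Q * g * P) = (N * Q) * g * P := by noncomm_ring
      _ = E * P := by rw [hNQ]
      _ = P := hEP
  refine ⟨Q * g * P, hfL, ?_, ?_, ?_, ?_⟩
  · calc Q * g * P * (Q * g * P) = Q * g * (P * Q) * g * P := by noncomm_ring
      _ = 0 := by rw [hPQ]; simp
  · rw [hNf', hPN]
  · rw [hfN]
    have hQQ : Q * Q = Q := by
      rw [hQ, smul_mul_assoc, mul_smul_comm, smul_smul]
      have : (k * k - k) * (k * k - k) = (k * k * k) * k - 2 • (k * k * k) + k * k := by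
        noncomm_ring
      rw [this, hkkk]
      match_scalars <;> norm_num
    calc Q * (Q * g * P) = (Q * Q) * g * P := by noncomm_ring
      _ = Q * g * P := by rw [hQQ]
  · rw [hNf', hfN]
    have hPQk : P - Q = k := by
      rw [hP', hQ', hk]; abel
    rw [hPQk, hk, mul_sub, sub_mul, hhE, hhF, hEh, hFh]

end lie

end TR
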